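import Pool.Agent.Helper63.TK.Growth
import Pool.Agent.Helper30.TP.Dim3
import Pool.Agent.Helper30.TP.Ultra
import Pool.Agent.Helper38.Sym.GenEngine

/-!
# Orbits which meet a curve along an arithmetic progression
-/

set_option autoImplicit false

namespace Pool.Agent.Helper30.TK2

open MvPolynomial
open Pool.Agent.Helper16 (Place IsFunctionField)
open Pool.Agent.Helper36 (step iter iter_zero iter_succ iter_succ' iter_add iter_map)
open Pool.Agent.Helper30.TP
open Pool.Agent.Helper63.TK (homog_of_endo iter_ne_zeroK distinct_of_unbounded)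

/-! ### Unions of residue classes -/

theorem exists_progressions {T : Set ℕ} {n₁ M : ℕ} (hM : 0 < M)
    (h : ∀ s < M, (∀ l, n₁ + M * l + s ∈ T) ∨ {l | n₁ + M * l + s ∈ T}.Finite) :
    ∃ Q : Finset (ℕ × ℕ), T = {n | ∃ q ∈ Q, ∃ k, n = q.1 * k + q.2} := by
  classical
  set full : ℕ → Prop := fun s => ∀ l, n₁ + M * l + s ∈ T with hfull
  set A : Set ℕ := {n | n ∈ T ∧ (n < n₁ ∨ ¬ full ((n - n₁) % M))} with hA
  have hAfin : A.Finite := by
    refine Set.Finite.subset ((Set.finite_lt_nat n₁).union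
      (Set.Finite.biUnion (Set.finite_lt_nat M) (t := fun s =>
        (fun l => n₁ + M * l + s) '' {l | ¬ full s ∧ n₁ + M * l + s ∈ T}) ?_)) ?_
    · intro s hs
      apply Set.Finite.image
      by_cases hf : full s
      · simp [hf]
      · exact ((h s hs).resolve_left hf).subset fun l hl => hl.2
    · rintro n ⟨hnT, hn⟩
      rcases Nat.lt_or_ge n n₁ with hlt | hge
      · exact Or.inl hlt
      · right
        have hnf := hn.resolve_left (by omega)
        rw [Set.mem_iUnion₂]
        have h1 : n₁ + M * ((n - n₁) / M) + (n - n₁) % M = n := by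
          have := Nat.div_add_mod (n - n₁) M
          omega
        exact ⟨(n - n₁) % M, Nat.mod_lt _ hM, (n - n₁) / M,
          ⟨hnf, by rw [h1]; exact hnT⟩, h1⟩
  refine ⟨hAfin.toFinset.image (fun n => (0, n)) ∪
    ((Finset.range M).filter fun s => full s).image (fun s => (M, n₁ + s)), ?_⟩
  ext n
  simp only [Set.mem_setOf_eq, Finset.mem_union, Finset.mem_image, Set.Finite.mem_toFinset,
    Finset.mem_filter, Finset.mem_range]
  constructor
  · intro hn
    by_cases hnA : n ∈ A
    · exact ⟨(0, n), Or.inl ⟨n, hnA, rfl⟩, 0, by simp⟩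
    · have h2 : n₁ ≤ n ∧ full ((n - n₁) % M) := by
        by_contra hcon
        apply hnA
        refine ⟨hn, ?_⟩
        by_contra h3
        push Not at h3
        exact hcon ⟨h3.1, h3.2⟩
      refine ⟨(M, n₁ + (n - n₁) % M), Or.inr ⟨(n - n₁) % M, ⟨Nat.mod_lt _ hM, h2.2⟩, rfl⟩,
        (n - n₁) / M, ?_⟩
      have := Nat.div_add_mod (n - n₁) M
      have := h2.1
      simp only
      omega
  · rintro ⟨q, hq | hq, k, rfl⟩
    · obtain ⟨n, hn, rfl⟩ := hq
      simpa using hn.1
    · obtain ⟨s, ⟨-, hs⟩, rfl⟩ := hq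
      have := hs k
      rwa [show M * k + (n₁ + s) = n₁ + M * k + s by ring]

/-! ### The image of a curve -/

section

variable {K : Type} [Field K]

theorem isEndoK [Algebra K ℂ] {d : ℕ} {F : Fin 3 → MvPolynomial (Fin 3) K}
    (hF : IsEndo d fun i => map (algebraMap K ℂ) (F i)) : IsEndo d F where
  two_le := hF.two_le
  hom := fun i => homog_of_endo hF i
  nz := by
    intro x hx
    have h := hF.nz (fun i => algebraMap K ℂ (x i)) (by
      intro i
      rw [← Pool.Agent.Helper38.Sym.map_eval_gen, hx, map_zero])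
    funext i
    exact (map_eq_zero_iff _ (algebraMap K ℂ).injective).1 (congrFun h i)

theorem unit_of_degree_zero {a : MvPolynomial (Fin 3) K} (ha : a.IsHomogeneous 0) (h0 : a ≠ 0) :
    IsUnit a := by
  have h1 := totalDegree_eq_zero_iff_eq_C.1 (Nat.le_zero.1 ha.totalDegree_le)
  rw [h1]
  exact (Ne.isUnit fun h => h0 (by rw [h1, h, C_0])).map C

/-- A form `P ≠ 0` such that `h` divides the composition of `P` with `F`. -/
theorem exists_image_form {d : ℕ} {F : Fin 3 → MvPolynomial (Fin 3) K} (hF : IsEndo d F)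
    {h : MvPolynomial (Fin 3) K} {t : ℕ} (hh : h.IsHomogeneous t) (h0 : h ≠ 0) :
    ∃ (e : ℕ) (P : MvPolynomial (Fin 3) K), P.IsHomogeneous e ∧ P ≠ 0 ∧ h ∣ compk F P := by
  have hd := hF.two_le
  set e : ℕ := 2 * d * t with he
  -- composition with `F`
  let L : homogeneousSubmodule (Fin 3) K e →ₗ[K] homogeneousSubmodule (Fin 3) K (d * e) :=
    LinearMap.codRestrict _
      ((aeval F : MvPolynomial (Fin 3) K →ₐ[K] MvPolynomial (Fin 3) K).toLinearMap ∘ₗ
        (homogeneousSubmodule (Fin 3) K e).subtype)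
      (fun Q => (mem_homogeneousSubmodule _ _).2
        (compk_hom hF ((mem_homogeneousSubmodule _ _).1 Q.2)))
  have hle : t ≤ d * e := by
    rw [he]
    nlinarith [Nat.mul_le_mul hd hd, Nat.zero_le t]
  set W := LinearMap.range (Dim3_mul h hh (show t + (d * e - t) = d * e by omega)) with hW
  haveI := (finrank_forms K (d * e)).1
  haveI := (finrank_forms K e).1
  haveI := (finrank_forms K (d * e - t)).1
  have hWr : Module.finrank K W = (d * e - t + 2).choose 2 := by
    rw [hW, LinearMap.finrank_range_of_inj (Dim3_mul_injective hh _ h0), (finrank_forms K _).2]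
  have hq : Module.finrank K (homogeneousSubmodule (Fin 3) K (d * e) ⧸ W) +
      (d * e - t + 2).choose 2 = (d * e + 2).choose 2 := by
    rw [← hWr, ← (finrank_forms K (d * e)).2]
    exact Submodule.finrank_quotient_add_finrank W
  have hlt : Module.finrank K (homogeneousSubmodule (Fin 3) K (d * e) ⧸ W) <
      Module.finrank K (homogeneousSubmodule (Fin 3) K e) := by
    rw [(finrank_forms K e).2]
    generalize Module.finrank K (homogeneousSubmodule (Fin 3) K (d * e) ⧸ W) = r at hq ⊢
    obtain ⟨u, hu⟩ := Nat.exists_eq_add_of_le hle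
    have h1 := Dim3_choose (d * e)
    have h2 := Dim3_choose (d * e - t)
    have h3 := Dim3_choose e
    rw [hu, Nat.add_sub_cancel_left] at h2 hq
    rw [hu] at h1
    have h4 : t + u = 2 * d * d * t := by
      rw [← hu, he]; ring
    have h5 : (t + u + 2) * (t + u + 1) - (u + 2) * (u + 1) < (e + 2) * (e + 1) := by
      have h6 : (t + u + 2) * (t + u + 1) < (u + 2) * (u + 1) + (e + 2) * (e + 1) := by
        have h7 : 2 * t * (t + u) ≤ e * e := by
          rw [h4, he]
          apply le_of_eq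
          ring
        have h8 : 3 * t ≤ 3 * e := by
          rw [he]
          nlinarith [Nat.mul_le_mul hd (le_refl t), Nat.zero_le t]
        nlinarith [Nat.zero_le (t * t)]
      omega
    have h9 : (u + 2) * (u + 1) ≤ (t + u + 2) * (t + u + 1) := by
      nlinarith [Nat.zero_le t, Nat.zero_le u]
    omega
  have hker : LinearMap.ker (W.mkQ ∘ₗ L) ≠ ⊥ := LinearMap.ker_ne_bot_of_finrank_lt hlt
  obtain ⟨P, hP, hP0⟩ := Submodule.exists_mem_ne_zero_of_ne_bot hker
  have hP1 : L P ∈ W := by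
    have := LinearMap.mem_ker.1 hP
    rw [LinearMap.comp_apply, Submodule.mkQ_apply, Submodule.Quotient.mk_eq_zero] at this
    exact this
  obtain ⟨Q, hQ⟩ := hP1
  refine ⟨e, P, (mem_homogeneousSubmodule _ _).1 P.2, fun h => hP0 (Subtype.ext h), Q, ?_⟩
  have h2 := congrArg (fun T : homogeneousSubmodule (Fin 3) K (d * e) =>
    (T : MvPolynomial (Fin 3) K)) hQ
  exact h2.symm

/-- The image of an irreducible curve. -/
theorem exists_image {d : ℕ} {F : Fin 3 → MvPolynomial (Fin 3) K} (hF : IsEndo d F)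
    {h : MvPolynomial (Fin 3) K} {t : ℕ} (hh : h.IsHomogeneous t) (hirr : Irreducible h) :
    ∃ (e : ℕ) (P : MvPolynomial (Fin 3) K), P.IsHomogeneous e ∧ Irreducible P ∧
      h ∣ compk F P := by
  classical
  have hex := exists_image_form hF hh hirr.ne_zero
  set e := Nat.find hex with he
  obtain ⟨P, hP, hP0, hdvd⟩ := Nat.find_spec hex
  refine ⟨e, P, hP, ?_, hdvd⟩
  have hunit : ∀ (c : MvPolynomial (Fin 3) K), IsUnit c → ¬ h ∣ compk F c := by
    intro c hc hdv
    exact hirr.not_isUnit (isUnit_of_dvd_unit hdv (hc.map (aeval F : _ →ₐ[K] _)))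
  rw [irreducible_iff]
  refine ⟨fun hu => hunit P hu hdvd, ?_⟩
  intro a b hab
  obtain ⟨i, j, hai, hbj, hij⟩ := form_of_mul hP hP0 hab
  have ha0 : a ≠ 0 := fun h => hP0 (by rw [hab, h, zero_mul])
  have hb0 : b ≠ 0 := fun h => hP0 (by rw [hab, h, mul_zero])
  have hmul : compk F P = compk F a * compk F b := by
    rw [hab]
    exact map_mul _ _ _
  rw [hmul] at hdvd
  rcases hirr.prime.dvd_or_dvd hdvd with h1 | h1
  · right
    have h2 : e ≤ i := Nat.find_min' hex ⟨a, hai, ha0, h1⟩
    have h3 : j = 0 := by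
      change i + j = e at hij
      omega
    subst h3
    exact unit_of_degree_zero hbj hb0
  · left
    have h2 : e ≤ j := Nat.find_min' hex ⟨b, hbj, hb0, h1⟩
    have h3 : i = 0 := by
      change i + j = e at hij
      omega
    subst h3
    exact unit_of_degree_zero hai ha0

/-- The sequence of the images of an irreducible curve. -/
theorem exists_images {d : ℕ} {F : Fin 3 → MvPolynomial (Fin 3) K} (hF : IsEndo d F)
    {h : MvPolynomial (Fin 3) K} {t : ℕ} (hh : h.IsHomogeneous t) (hirr : Irreducible h) :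
    ∃ ρ : ℕ → MvPolynomial (Fin 3) K, ρ 0 = h ∧ (∀ j, ∃ e, (ρ j).IsHomogeneous e) ∧
      (∀ j, Irreducible (ρ j)) ∧ ∀ j, ρ j ∣ compk F (ρ (j + 1)) := by
  have hex : ∀ q : {q : MvPolynomial (Fin 3) K // (∃ e, q.IsHomogeneous e) ∧ Irreducible q},
      ∃ q' : {q : MvPolynomial (Fin 3) K // (∃ e, q.IsHomogeneous e) ∧ Irreducible q},
        (q : MvPolynomial (Fin 3) K) ∣ compk F q' := by
    rintro ⟨q, ⟨e, he⟩, hq⟩
    obtain ⟨e', P, hP, hPi, hdvd⟩ := exists_image hF he hq
    exact ⟨⟨P, ⟨e', hP⟩, hPi⟩, hdvd⟩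
  choose φ hφ using hex
  refine ⟨fun j => (φ^[j] ⟨h, ⟨t, hh⟩, hirr⟩ : _), rfl, fun j => (φ^[j] _).2.1,
    fun j => (φ^[j] _).2.2, fun j => ?_⟩
  beta_reduce
  rw [Function.iterate_succ_apply']
  exact hφ _

theorem image_van {F : Fin 3 → MvPolynomial (Fin 3) K} {ρ : ℕ → MvPolynomial (Fin 3) K}
    (hρ : ∀ j, ρ j ∣ compk F (ρ (j + 1))) (x : Fin 3 → K) {j n : ℕ}
    (h : eval (iter F x n) (ρ j) = 0) (i : ℕ) : eval (iter F x (n + i)) (ρ (j + i)) = 0 := by
  induction i with
  | zero => exact h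
  | succ i ih =>
    obtain ⟨Q, hQ⟩ := hρ (j + i)
    have h1 := congrArg (aeval (iter F x (n + i))) hQ
    rw [aeval_compk, map_mul, MvPolynomial.aeval_eq_eval, MvPolynomial.aeval_eq_eval] at h1
    rw [← add_assoc, ← add_assoc, iter_succ]
    have h2 : (eval (iter F x (n + i)) : MvPolynomial (Fin 3) K →+* K) (ρ (j + i)) = 0 := ih
    change eval (step F (iter F x (n + i))) (ρ (j + i + 1)) =
      eval (iter F x (n + i)) (ρ (j + i)) * _ at h1
    rw [h2, zero_mul] at h1
    exact h1

/-- If a form vanishes at infinitely many points of a sequence, one of its irreducible factors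
does. -/
theorem exists_factor (x : ℕ → Fin 3 → K)
    {P : MvPolynomial (Fin 3) K} {e : ℕ} (hP : P.IsHomogeneous e)
    (hP0 : P ≠ 0) (hinf : {n | eval (x n) P = 0}.Infinite) :
    ∃ (ρ : MvPolynomial (Fin 3) K) (t : ℕ), ρ.IsHomogeneous t ∧ Irreducible ρ ∧
      {n | eval (x n) ρ = 0}.Infinite := by
  induction e using Nat.strong_induction_on generalizing P with
  | _ e ih =>
    by_cases hirr : Irreducible P
    · exact ⟨P, e, hP, hirr, hinf⟩
    have hnu : ¬ IsUnit P := by
      intro h
      obtain ⟨n, hn⟩ := hinf.nonempty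
      have hn' : eval (x n) P = 0 := hn
      have := h.map (eval (x n))
      rw [hn'] at this
      exact not_isUnit_zero this
    rw [irreducible_iff] at hirr
    push Not at hirr
    obtain ⟨a, b, hab, ha, hb⟩ := hirr hnu
    obtain ⟨i, j, hai, hbj, hij⟩ := form_of_mul hP hP0 hab
    have ha0 : a ≠ 0 := fun h => hP0 (by rw [hab, h, zero_mul])
    have hb0 : b ≠ 0 := fun h => hP0 (by rw [hab, h, mul_zero])
    have hi : i ≠ 0 := fun h => ha (unit_of_degree_zero (h ▸ hai) ha0)
    have hj : j ≠ 0 := fun h => hb (unit_of_degree_zero (h ▸ hbj) hb0)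
    have hsub : {n | eval (x n) P = 0} ⊆ {n | eval (x n) a = 0} ∪ {n | eval (x n) b = 0} := by
      intro n hn
      have hn' : eval (x n) P = 0 := hn
      rw [hab, map_mul, mul_eq_zero] at hn'
      exact hn'
    rcases Set.infinite_union.1 (hinf.mono hsub) with h | h
    · exact ih i (by omega) hai ha0 h
    · exact ih j (by omega) hbj hb0 h

/-- If the points of the orbit are pairwise different and if a nonzero form vanishes along an
arithmetic progression, then the classes of some modulus are contained in irreducible curves. -/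
theorem exists_cycle {d : ℕ} {F : Fin 3 → MvPolynomial (Fin 3) K} (hF : IsEndo d F)
    {x : Fin 3 → K} (hne0 : ∀ n, iter F x n ≠ 0)
    (hdist : ∀ n m, n ≠ m → ¬ PEq (iter F x n) (iter F x m))
    {P : MvPolynomial (Fin 3) K} {e : ℕ} (hP : P.IsHomogeneous e) (hP0 : P ≠ 0) {n₀ m : ℕ}
    (hm : 0 < m) (hprog : ∀ a, eval (iter F x (n₀ + m * a)) P = 0) :
    ∃ (M n₁ : ℕ) (g : ℕ → MvPolynomial (Fin 3) K), 0 < M ∧
      (∀ s, ∃ e, (g s).IsHomogeneous e) ∧ (∀ s, Irreducible (g s)) ∧
      ∀ s l, eval (iter F x (n₁ + M * l + s)) (g s) = 0 := by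
  classical
  obtain ⟨h, t, hh, hirr, hinf⟩ := exists_factor
    (fun a => iter F x (n₀ + m * a)) hP hP0 (by
      have : {a | eval (iter F x (n₀ + m * a)) P = 0} = Set.univ :=
        Set.eq_univ_of_forall hprog
      rw [this]
      exact Set.infinite_univ)
  obtain ⟨ρ, hρ0, hρh, hρi, hρ⟩ := exists_images hF hh hirr
  -- the images divide `P`
  have hdvd : ∀ j, ρ (m * j) ∣ P := by
    intro j
    by_contra hnd
    obtain ⟨e', he'⟩ := hρh (m * j)
    have hfin := finite_common_zeros he' hP (hρi _) hnd (fun a : ℕ => iter F x (n₀ + m * a))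
      (fun a => hne0 _) (fun a b hab => hdist _ _ (by
        intro h
        exact hab (Nat.eq_of_mul_eq_mul_left hm (by omega))))
    have hinf2 := hinf.image (f := fun a => a + j) (fun a _ b _ h => by
      simpa using h)
    apply hinf2
    refine hfin.subset ?_
    rintro _ ⟨a, ha, rfl⟩
    refine ⟨?_, hprog _⟩
    have ha' : eval (iter F x (n₀ + m * a)) (ρ 0) = 0 := by rw [hρ0]; exact ha
    have h1 := image_van hρ x ha' (m * j)
    rw [zero_add] at h1
    have h2 : n₀ + m * (a + j) = n₀ + m * a + m * j := by ring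
    change eval (iter F x (n₀ + m * (a + j))) (ρ (m * j)) = 0
    rw [h2]
    exact h1
  -- two of the images agree
  have hq : ∀ j, ∃ q ∈ UniqueFactorizationMonoid.factors P, Associated (ρ (m * j)) q := fun j =>
    UniqueFactorizationMonoid.exists_mem_factors_of_dvd hP0 (hρi _) (hdvd j)
  choose q hqm hqa using hq
  obtain ⟨i, j, hij, hqij⟩ : ∃ i j : ℕ, i ≠ j ∧ q i = q j := by
    have := Finite.exists_ne_map_eq_of_infinite (fun i : ℕ =>
      (⟨q i, Multiset.mem_toFinset.2 (hqm i)⟩ : (UniqueFactorizationMonoid.factors P).toFinset))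
    obtain ⟨i, j, hij, h⟩ := this
    exact ⟨i, j, hij, congrArg Subtype.val h⟩
  wlog hlt : i < j generalizing i j
  · exact this j i hij.symm hqij.symm (by omega)
  have hass : Associated (ρ (m * i)) (ρ (m * j)) :=
    (hqa i).trans (by rw [hqij]; exact (hqa j).symm)
  obtain ⟨a, ha⟩ := hinf.nonempty
  have ha' : eval (iter F x (n₀ + m * a)) (ρ 0) = 0 := by rw [hρ0]; exact ha
  have hstart : eval (iter F x (n₀ + m * a + m * i)) (ρ (m * i)) = 0 := by
    have h1 := image_van hρ x ha' (m * i)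
    rwa [zero_add] at h1
  set n₁ := n₀ + m * a + m * i with hn₁
  have hcyc : ∀ l, eval (iter F x (n₁ + m * (j - i) * l)) (ρ (m * i)) = 0 := by
    intro l
    induction l with
    | zero => exact hstart
    | succ l ih =>
      have h1 := image_van hρ x ih (m * (j - i))
      have h2 : m * i + m * (j - i) = m * j := by
        rw [← mul_add, Nat.add_sub_cancel' hlt.le]
      rw [h2] at h1
      obtain ⟨Q, hQ⟩ := hass.symm.dvd
      have h3 : n₁ + m * (j - i) * (l + 1) = n₁ + m * (j - i) * l + m * (j - i) := by ring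
      rw [h3, hQ, map_mul, h1, zero_mul]
  refine ⟨m * (j - i), n₁, fun s => ρ (m * i + s), Nat.mul_pos hm (by omega),
    fun s => hρh _, fun s => hρi _, fun s l => image_van hρ x (hcyc l) s⟩

end

/-- If an orbit meets some curve along an arithmetic progression, then it has the Dynamical
Mordell-Lang property. -/
theorem dml_of_progression {K : Type} [Field K] [Algebra K ℂ] {d : ℕ}
    {F : Fin 3 → MvPolynomial (Fin 3) K} (hF : IsEndo d fun i => map (algebraMap K ℂ) (F i))
    {x : Fin 3 → K} (hx : x ≠ 0) (hdist : ∀ n m, n ≠ m → ¬ PEq (iter F x n) (iter F x m))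
    {P : MvPolynomial (Fin 3) K} {e : ℕ} (hP : P.IsHomogeneous e) (hP0 : P ≠ 0) {n₀ m : ℕ}
    (hm : 0 < m) (hprog : ∀ a, eval (iter F x (n₀ + m * a)) P = 0) (c : ℂ) (hc : c ≠ 0) :
    Pool.Agent.Helper38.Sym.DMLgen (fun i => map (algebraMap K ℂ) (F i))
      (fun i => c * algebraMap K ℂ (x i)) := by
  classical
  have hne0 : ∀ n, iter F x n ≠ 0 := fun n => iter_ne_zeroK hF hx n
  obtain ⟨M, n₁, g, hM, hgh, hgi, hg⟩ := exists_cycle (isEndoK hF) hne0 hdist hP hP0 hm hprog
  intro S hS
  have horb : ∀ n, (fun (x : Fin 3 → ℂ) (i : Fin 3) =>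
      eval x (map (algebraMap K ℂ) (F i)))^[n] (fun i => c * algebraMap K ℂ (x i)) =
      c ^ d ^ n • fun i => algebraMap K ℂ (iter F x n i) := by
    intro n
    have h1 : (fun (x : Fin 3 → ℂ) (i : Fin 3) => eval x (map (algebraMap K ℂ) (F i))) =
        step fun i => map (algebraMap K ℂ) (F i) := by
      funext x i
      rfl
    rw [h1]
    have h2 : (fun i => c * algebraMap K ℂ (x i)) = c • fun i => algebraMap K ℂ (x i) := rfl
    rw [h2]
    change iter (fun i => map (algebraMap K ℂ) (F i)) (c • fun i => algebraMap K ℂ (x i)) n = _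
    rw [iter_smul hF]
    congr 1
    induction n with
    | zero => rfl
    | succ n ih =>
      rw [iter_succ, ih]
      funext i
      change eval _ (map (algebraMap K ℂ) (F i)) = algebraMap K ℂ (iter F x (n + 1) i)
      rw [iter_succ]
      exact (Pool.Agent.Helper38.Sym.map_eval_gen (algebraMap K ℂ) _ _).symm
  have hiff : ∀ n, ∀ g ∈ S, (eval ((fun (x : Fin 3 → ℂ) (i : Fin 3) =>
      eval x (map (algebraMap K ℂ) (F i)))^[n] (fun i => c * algebraMap K ℂ (x i))) g = 0 ↔
      eval (fun i => algebraMap K ℂ (iter F x n i)) g = 0) := by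
    intro n g hg
    obtain ⟨e, he⟩ := hS g hg
    rw [horb, eval_smul_hom he, mul_eq_zero]
    exact ⟨fun h => h.resolve_left (pow_ne_zero _ (pow_ne_zero _ hc)), Or.inr⟩
  have hset : {n : ℕ | ∀ g ∈ S, eval ((fun (x : Fin 3 → ℂ) (i : Fin 3) =>
      eval x (map (algebraMap K ℂ) (F i)))^[n] (fun i => c * algebraMap K ℂ (x i))) g = 0} =
      {n : ℕ | ∀ g ∈ S, eval (fun i => algebraMap K ℂ (iter F x n i)) g = 0} := by
    ext n
    exact forall₂_congr fun g hg => hiff n g hg
  rw [hset]
  refine exists_progressions (n₁ := n₁) hM fun s _ => ?_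
  by_cases hall : ∀ l, n₁ + M * l + s ∈
      {n : ℕ | ∀ g ∈ S, eval (fun i => algebraMap K ℂ (iter F x n i)) g = 0}
  · exact Or.inl hall
  right
  push Not at hall
  obtain ⟨l₀, hl₀⟩ := hall
  rw [Set.mem_setOf_eq] at hl₀
  push Not at hl₀
  obtain ⟨p, hpS, hp⟩ := hl₀
  obtain ⟨e₁, he₁⟩ := hS p hpS
  -- a coordinate of the value
  set B := Module.Basis.ofVectorSpace K ℂ with hB
  obtain ⟨b, hb⟩ : ∃ b, B.coord b
      (eval (fun i => algebraMap K ℂ (iter F x (n₁ + M * l₀ + s) i)) p) ≠ 0 := by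
    by_contra hcon
    push Not at hcon
    exact hp (B.forall_coord_eq_zero_iff.1 hcon)
  rw [← ultra_eval_lam] at hb
  obtain ⟨e₂, he₂⟩ := hgh s
  have hnd : ¬ g s ∣ lam (B.coord b) p := by
    rintro ⟨Q, hQ⟩
    apply hb
    rw [hQ, map_mul, hg, zero_mul]
  have hfin := finite_common_zeros he₂ (ultra_lam_hom (B.coord b) he₁) (hgi s) hnd
    (fun l : ℕ => iter F x (n₁ + M * l + s)) (fun l => hne0 _) (fun l l' hll => hdist _ _ (by
      intro h
      exact hll (Nat.eq_of_mul_eq_mul_left hM (by omega))))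
  refine hfin.subset fun l hl => ⟨hg s l, ?_⟩
  rw [ultra_eval_lam, hl p hpS, map_zero]

/-- The form for points of unbounded height over function fields. -/
theorem prog_dml {k K : Type} [Field k] [IsAlgClosed k] [CharZero k] [Field K] [Algebra k K]
    [Algebra K ℂ] (hK : IsFunctionField k K) {d : ℕ}
    {F : Fin 3 → MvPolynomial (Fin 3) K} (hF : IsEndo d fun i => map (algebraMap K ℂ) (F i))
    {x : Fin 3 → K} (hx : x ≠ 0) (hunb : ∀ B : ℤ, ∃ n, B < ht k (iter F x n))
    {P : MvPolynomial (Fin 3) K} {e : ℕ} (hP : P.IsHomogeneous e) (hP0 : P ≠ 0) {n₀ m : ℕ}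
    (hm : 0 < m) (hprog : ∀ a, eval (iter F x (n₀ + m * a)) P = 0) (c : ℂ) (hc : c ≠ 0) :
    Pool.Agent.Helper38.Sym.DMLgen (fun i => map (algebraMap K ℂ) (F i))
      (fun i => c * algebraMap K ℂ (x i)) :=
  dml_of_progression hF hx (distinct_of_unbounded hK hF hx hunb) hP hP0 hm hprog c hc

end Pool.Agent.Helper30.TK2
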